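import Mathlib

/-!
# MP_4c0b8d_co: two-sided intersecting families on a two-part ground set

For all `k, ℓ ≥ 2`, `n₁ > 2 k`, `n₂ > 2 ℓ` there is a two-sided intersecting family with more than
`max {A, B}` members.
-/

set_option autoImplicit false

open Finset

namespace Pool.Agent.Results.MP_4c0b8d_co.HiltonMilnerBeats

/-- A member `F` of `binom (X₁, X₂; k, ℓ)`, `X₁ = Fin n₁`, `X₂ = Fin n₂`, is written as the pair
`(F ∩ X₁, F ∩ X₂)`. Two members `F, G` intersect when they intersect on `X₁` or on `X₂`. -/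
def Meets {n₁ n₂ : ℕ} (F G : Finset (Fin n₁) × Finset (Fin n₂)) : Prop :=
  (F.1 ∩ G.1).Nonempty ∨ (F.2 ∩ G.2).Nonempty

/-- two-sided intersecting families in `binom (X₁, X₂; k, ℓ)` -/
def TwoSided (n₁ n₂ k l : ℕ) (𝓕 : Finset (Finset (Fin n₁) × Finset (Fin n₂))) : Prop :=
  (∀ F ∈ 𝓕, #F.1 = k ∧ #F.2 = l) ∧ (∀ F ∈ 𝓕, ∀ G ∈ 𝓕, Meets F G) ∧
    (∃ F ∈ 𝓕, ∃ G ∈ 𝓕, F.1 ∩ G.1 = ∅) ∧ (∃ F ∈ 𝓕, ∃ G ∈ 𝓕, F.2 ∩ G.2 = ∅)

/-- `A = (C(n₂-1,ℓ-1) - C(n₂-ℓ-1,ℓ-1)) C(n₁,k) + 1 + C(n₁,k) - C(n₁-k,k)` -/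
def A (n₁ n₂ k l : ℕ) : ℤ :=
  (((n₂ - 1).choose (l - 1) : ℤ) - (n₂ - l - 1).choose (l - 1)) * n₁.choose k + 1 + n₁.choose k
    - (n₁ - k).choose k

/-- `B = (C(n₁-1,k-1) - C(n₁-k-1,k-1)) C(n₂,ℓ) + 1 + C(n₂,ℓ) - C(n₂-ℓ,ℓ)` -/
def B (n₁ n₂ k l : ℕ) : ℤ :=
  (((n₁ - 1).choose (k - 1) : ℤ) - (n₁ - k - 1).choose (k - 1)) * n₂.choose l + 1 + n₂.choose l
    - (n₂ - l).choose l

lemma card_containing {n : ℕ} (S : Finset (Fin n)) (x : Fin n) (hx : x ∈ S) (k : ℕ) (hk : 1 ≤ k) :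
    #((powersetCard k S).filter (fun A => x ∈ A)) = (#S - 1).choose (k - 1) := by
  have h1 := card_filter_add_card_filter_not (s := powersetCard k S) (fun A => x ∈ A)
  have h2 : (powersetCard k S).filter (fun A => x ∉ A) = powersetCard k (S.erase x) := by
    ext A
    rw [mem_filter, mem_powersetCard, mem_powersetCard]
    constructor
    · rintro ⟨⟨h3, h4⟩, h5⟩
      exact ⟨fun y hy => mem_erase.2 ⟨fun h => h5 (h ▸ hy), h3 hy⟩, h4⟩
    · rintro ⟨h3, h4⟩
      exact ⟨⟨h3.trans (erase_subset _ _), h4⟩, fun h => (mem_erase.1 (h3 h)).1 rfl⟩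
  rw [h2, card_powersetCard, card_powersetCard, card_erase_of_mem hx] at h1
  have hS : 1 ≤ #S := card_pos.2 ⟨x, hx⟩
  obtain ⟨s, hs⟩ : ∃ s, #S = s + 1 := ⟨#S - 1, by omega⟩
  obtain ⟨j, hj⟩ : ∃ j, k = j + 1 := ⟨k - 1, by omega⟩
  rw [hs, hj] at h1 ⊢
  have h3 : (s + 1).choose (j + 1) = s.choose j + s.choose (j + 1) := Nat.choose_succ_succ' s j
  have e1 : s + 1 - 1 = s := by omega
  have e2 : j + 1 - 1 = j := by omega
  rw [e1] at h1 ⊢
  rw [e2]
  omega

lemma arith (M a b c d : ℕ) (h : M + b * d = a * c + 1) (hb : 2 ≤ b) (hcd : d < c) :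
    ((a : ℤ) - b) * c + 1 + c - d < (M : ℤ) := by
  have h3 : (M : ℤ) + (b : ℤ) * (d : ℤ) = (a : ℤ) * (c : ℤ) + 1 := by exact_mod_cast h
  have h4 : (0 : ℤ) < (b : ℤ) - 1 := by omega
  have h5 : (0 : ℤ) < (c : ℤ) - (d : ℤ) := by omega
  nlinarith [mul_pos h4 h5]

/-- the Hilton–Milner type family beats `B` -/
lemma beats_B (n₁ n₂ k l : ℕ) (hk : 2 ≤ k) (hl : 1 ≤ l) (h1 : 2 * k < n₁) (h2 : 2 * l ≤ n₂) :
    ∃ 𝓕, TwoSided n₁ n₂ k l 𝓕 ∧ B n₁ n₂ k l < (#𝓕 : ℤ) := by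
  classical
  let x : Fin n₁ := ⟨0, by omega⟩
  obtain ⟨K, hK1, hK2⟩ := exists_subset_card_eq (s := (univ : Finset (Fin n₁)).erase x) (n := k)
    (by rw [card_erase_of_mem (mem_univ _), card_univ, Fintype.card_fin]; omega)
  have hxK : x ∉ K := fun h => (mem_erase.1 (hK1 h)).1 rfl
  obtain ⟨L, -, hL2⟩ := exists_subset_card_eq (s := (univ : Finset (Fin n₂))) (n := l)
    (by rw [card_univ, Fintype.card_fin]; omega)
  let AllF : Finset (Finset (Fin n₁) × Finset (Fin n₂)) :=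
    ((powersetCard k univ).filter (fun A => x ∈ A)) ×ˢ powersetCard l univ
  let BadF : Finset (Finset (Fin n₁) × Finset (Fin n₂)) :=
    ((powersetCard k Kᶜ).filter (fun A => x ∈ A)) ×ˢ powersetCard l Lᶜ
  have hbad : BadF ⊆ AllF := by
    intro F hF
    rw [mem_product, mem_filter, mem_powersetCard, mem_powersetCard] at hF
    rw [mem_product, mem_filter, mem_powersetCard, mem_powersetCard]
    exact ⟨⟨⟨subset_univ _, hF.1.1.2⟩, hF.1.2⟩, subset_univ _, hF.2.2⟩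
  have hKK : (K, L) ∉ AllF \ BadF := by
    intro h
    have := (mem_sdiff.1 h).1
    rw [mem_product, mem_filter] at this
    exact hxK this.1.2
  have hgood : ∀ F : Finset (Fin n₁) × Finset (Fin n₂), F ∈ AllF \ BadF ↔
      #F.1 = k ∧ #F.2 = l ∧ x ∈ F.1 ∧ ((F.1 ∩ K).Nonempty ∨ (F.2 ∩ L).Nonempty) := by
    intro F
    rw [mem_sdiff, mem_product, mem_filter, mem_powersetCard, mem_powersetCard, mem_product,
      mem_filter, mem_powersetCard, mem_powersetCard]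
    have e1 : F.1 ⊆ Kᶜ ↔ ¬ (F.1 ∩ K).Nonempty := by
      rw [not_nonempty_iff_eq_empty, ← disjoint_iff_inter_eq_empty, subset_compl_iff_disjoint_right]
    have e2 : F.2 ⊆ Lᶜ ↔ ¬ (F.2 ∩ L).Nonempty := by
      rw [not_nonempty_iff_eq_empty, ← disjoint_iff_inter_eq_empty, subset_compl_iff_disjoint_right]
    rw [e1, e2]
    simp only [subset_univ, true_and]
    tauto
  have hcard1 : #AllF = (n₁ - 1).choose (k - 1) * n₂.choose l := by
    rw [card_product, card_containing univ x (mem_univ _) k (by omega), card_powersetCard,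
      card_univ, card_univ, Fintype.card_fin, Fintype.card_fin]
  have hcard2 : #BadF = (n₁ - k - 1).choose (k - 1) * (n₂ - l).choose l := by
    rw [card_product, card_containing Kᶜ x (mem_compl.2 hxK) k (by omega), card_powersetCard,
      card_compl, card_compl, Fintype.card_fin, Fintype.card_fin, hK2, hL2]
  have hcard3 : #(insert (K, L) (AllF \ BadF)) + (n₁ - k - 1).choose (k - 1) * (n₂ - l).choose l =
      (n₁ - 1).choose (k - 1) * n₂.choose l + 1 := by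
    rw [card_insert_of_notMem hKK, card_sdiff_of_subset hbad, hcard1, hcard2]
    have := card_le_card hbad
    rw [hcard1, hcard2] at this
    omega
  refine ⟨insert (K, L) (AllF \ BadF), ⟨?_, ?_, ?_, ?_⟩, ?_⟩
  · intro F hF
    rcases mem_insert.1 hF with rfl | hF
    · exact ⟨hK2, hL2⟩
    · rw [hgood] at hF
      exact ⟨hF.1, hF.2.1⟩
  · intro F hF G hG
    rcases mem_insert.1 hF with rfl | hF <;> rcases mem_insert.1 hG with rfl | hG
    · left
      show (K ∩ K).Nonempty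
      rw [inter_self]
      exact card_pos.1 (by omega)
    · rw [hgood] at hG
      rcases hG.2.2.2 with h | h
      · left
        show (K ∩ G.1).Nonempty
        rwa [inter_comm]
      · right
        show (L ∩ G.2).Nonempty
        rwa [inter_comm]
    · rw [hgood] at hF
      rcases hF.2.2.2 with h | h
      · exact Or.inl h
      · exact Or.inr h
    · rw [hgood] at hF hG
      exact Or.inl ⟨x, mem_inter.2 ⟨hF.2.2.1, hG.2.2.1⟩⟩
  · -- `K ∪ L` and a member that is disjoint from `K` and contains `L`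
    obtain ⟨T, hT1, hT2⟩ := exists_subset_card_eq (s := (Kᶜ).erase x) (n := k - 1)
      (by rw [card_erase_of_mem (mem_compl.2 hxK), card_compl, Fintype.card_fin, hK2]; omega)
    have hxT : x ∉ T := fun h => (mem_erase.1 (hT1 h)).1 rfl
    refine ⟨(K, L), mem_insert_self _ _, (insert x T, L), mem_insert_of_mem ?_, ?_⟩
    · rw [hgood]
      refine ⟨?_, hL2, mem_insert_self _ _, Or.inr ?_⟩
      · show #(insert x T) = k
        rw [card_insert_of_notMem hxT, hT2]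
        omega
      · show (L ∩ L).Nonempty
        rw [inter_self]
        exact card_pos.1 (by omega)
    · show K ∩ insert x T = ∅
      rw [← disjoint_iff_inter_eq_empty, disjoint_left]
      intro y hy hy'
      rcases mem_insert.1 hy' with h | h
      · exact hxK (h ▸ hy)
      · exact (mem_compl.1 (mem_erase.1 (hT1 h)).2) hy
  · -- two members with the same trace on `X₁` and disjoint traces on `X₂`
    have hKne : K.Nonempty := card_pos.1 (by omega)
    obtain ⟨y, hy⟩ := hKne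
    have hxy : x ≠ y := fun h => hxK (h ▸ hy)
    obtain ⟨S, hS1, -, hS2⟩ := exists_subsuperset_card_eq (s := ({x, y} : Finset (Fin n₁)))
      (t := univ) (subset_univ _) (n := k) (by rw [card_pair hxy]; omega)
      (by rw [card_univ, Fintype.card_fin]; omega)
    have hxS : x ∈ S := hS1 (mem_insert_self _ _)
    have hyS : y ∈ S := hS1 (mem_insert_of_mem (mem_singleton_self _))
    obtain ⟨L', hL1', hL2'⟩ := exists_subset_card_eq (s := Lᶜ) (n := l)
      (by rw [card_compl, Fintype.card_fin, hL2]; omega)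
    refine ⟨(S, L), mem_insert_of_mem ?_, (S, L'), mem_insert_of_mem ?_, ?_⟩
    · rw [hgood]
      exact ⟨hS2, hL2, hxS, Or.inl ⟨y, mem_inter.2 ⟨hyS, hy⟩⟩⟩
    · rw [hgood]
      exact ⟨hS2, hL2', hxS, Or.inl ⟨y, mem_inter.2 ⟨hyS, hy⟩⟩⟩
    · show L ∩ L' = ∅
      rw [← disjoint_iff_inter_eq_empty, disjoint_left]
      intro z hz hz'
      exact (mem_compl.1 (hL1' hz')) hz
  · -- the size
    have hb : 2 ≤ (n₁ - k - 1).choose (k - 1) := by
      have h3 : k.choose (k - 1) ≤ (n₁ - k - 1).choose (k - 1) :=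
        Nat.choose_le_choose _ (by omega)
      have h4 : k.choose (k - 1) = k := by
        rw [Nat.choose_symm_of_eq_add (by omega : k = (k - 1) + 1), Nat.choose_one_right]
      omega
    have hcd : (n₂ - l).choose l < n₂.choose l := by
      obtain ⟨j, hj⟩ : ∃ j, l = j + 1 := ⟨l - 1, by omega⟩
      obtain ⟨m, hm⟩ : ∃ m, n₂ = m + 1 := ⟨n₂ - 1, by omega⟩
      have h3 : n₂.choose l = m.choose j + m.choose l := by
        rw [hj, hm]
        exact Nat.choose_succ_succ' m j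
      have h4 : (n₂ - l).choose l ≤ m.choose l := Nat.choose_le_choose _ (by omega)
      have h5 : 0 < m.choose j := Nat.choose_pos (by omega)
      omega
    exact arith _ _ _ _ _ hcard3 hb hcd

lemma swap_TwoSided {n₁ n₂ k l : ℕ} {𝓕 : Finset (Finset (Fin n₁) × Finset (Fin n₂))}
    (h : TwoSided n₁ n₂ k l 𝓕) : TwoSided n₂ n₁ l k (𝓕.image Prod.swap) := by
  obtain ⟨h1, h2, ⟨F, hF, G, hG, h3⟩, ⟨F', hF', G', hG', h4⟩⟩ := h
  refine ⟨?_, ?_, ?_, ?_⟩
  · intro F hF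
    obtain ⟨F', hF', rfl⟩ := mem_image.1 hF
    exact ⟨(h1 F' hF').2, (h1 F' hF').1⟩
  · intro F hF G hG
    obtain ⟨F', hF', rfl⟩ := mem_image.1 hF
    obtain ⟨G', hG', rfl⟩ := mem_image.1 hG
    rcases h2 F' hF' G' hG' with h | h
    · exact Or.inr h
    · exact Or.inl h
  · exact ⟨F'.swap, mem_image_of_mem _ hF', G'.swap, mem_image_of_mem _ hG', h4⟩
  · exact ⟨F.swap, mem_image_of_mem _ hF, G.swap, mem_image_of_mem _ hG, h3⟩

/-- **For all `k, ℓ ≥ 2`, `n₁ > 2 k`, `n₂ > 2 ℓ` there is a two-sided intersecting family in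
`binom (X₁, X₂; k, ℓ)` with more than `max {A, B}` members.** -/
theorem result (n₁ n₂ k l : ℕ) (hk : 2 ≤ k) (hl : 2 ≤ l) (h1 : 2 * k < n₁) (h2 : 2 * l < n₂) :
    ∃ 𝓕 : Finset (Finset (Fin n₁) × Finset (Fin n₂)), TwoSided n₁ n₂ k l 𝓕 ∧
      max (A n₁ n₂ k l) (B n₁ n₂ k l) < (#𝓕 : ℤ) := by
  classical
  rcases le_total (A n₁ n₂ k l) (B n₁ n₂ k l) with h | h
  · obtain ⟨𝓕, h3, h4⟩ := beats_B n₁ n₂ k l hk (by omega) h1 (by omega)
    exact ⟨𝓕, h3, max_lt (h.trans_lt h4) h4⟩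
  · obtain ⟨𝓕, h3, h4⟩ := beats_B n₂ n₁ l k hl (by omega) h2 (by omega)
    have h5 : A n₁ n₂ k l = B n₂ n₁ l k := rfl
    refine ⟨𝓕.image Prod.swap, swap_TwoSided h3, ?_⟩
    rw [card_image_of_injective _ Prod.swap_injective]
    rw [← h5] at h4
    exact max_lt h4 (h.trans_lt h4)

end Pool.Agent.Results.MP_4c0b8d_co.HiltonMilnerBeats
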